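import Mathlib
import Pool.Agent.R489.Etf.Kern
import Pool.Agent.R489.Etf.Gram

set_option autoImplicit false

namespace Pool.Agent.Results.MP_dc1a88_an

open Matrix Pool.Agent.R489.Etf

/-- `v_1, …, v_N` is a real equiangular tight frame in `ℝ^r`. -/
structure IsRealETF {N r : ℕ} (v : Fin N → EuclideanSpace ℝ (Fin r)) : Prop where
  unit : ∀ i, ‖v i‖ = 1
  tight : ∀ a b, ∑ i, v i a * v i b = if a = b then (N : ℝ) / r else 0
  equiangular : ∃ α : ℝ, 0 ≤ α ∧ α ≤ 1 ∧ ∀ i j, i ≠ j → |inner ℝ (v i) (v j)| = α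

/-- The Gram matrix. -/
noncomputable def gramMatrix {N r : ℕ} (v : Fin N → EuclideanSpace ℝ (Fin r)) : Matrix (Fin N) (Fin N) ℝ :=
  Matrix.of fun i j => inner ℝ (v i) (v j)

/-- The set of elements that appear an odd number of times in the concatenation of the tuples
`i` and `j`. -/
def oddSet {N m : ℕ} (i j : Fin m → Fin N) : Finset (Fin N) :=
  Finset.univ.filter fun k =>
    Odd ((Finset.univ.filter fun s => i s = k).card + (Finset.univ.filter fun s => j s = k).card)

/-- The tuple `(1, …, 1, i)` of length `m` (the first element of the index set is `0 : Fin N`). -/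
def lastTuple {N : ℕ} [NeZero N] (m : ℕ) (i : Fin N) : Fin m → Fin N :=
  fun s => if s.val + 1 = m then i else 0

/-- Membership of `X` in the degree-`d` generalized elliptope (`d` positive and even). -/
def InElliptope {N : ℕ} [NeZero N] (d : ℕ) (X : Matrix (Fin N) (Fin N) ℝ) : Prop :=
  ∃ Y : Matrix (Fin (d / 2) → Fin N) (Fin (d / 2) → Fin N) ℝ,
    (∀ i j, oddSet i j = ∅ → Y i j = 1) ∧
    (∀ i j i' j', oddSet i j = oddSet i' j' → Y i j = Y i' j') ∧
    (∀ i j, Y (lastTuple (d / 2) i) (lastTuple (d / 2) j) = X i j) ∧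
    Y.PosSemidef

/-- `d^*(X)`, the supremum of the even `d` with `X` in the degree-`d` elliptope. -/
noncomputable def dStar {N : ℕ} [NeZero N] (X : Matrix (Fin N) (Fin N) ℝ) : ℕ∞ :=
  ⨆ (d : ℕ) (_ : 0 < d ∧ Even d ∧ InElliptope d X), (d : ℕ∞)

/-- frame from a conference matrix -/
theorem etf_of_conf (S : Fin 26 → Fin 26 → ℤ) (h0 : ∀ i, S i i = 0)
    (h1 : ∀ i j, i ≠ j → S i j = 1 ∨ S i j = -1) (hs : ∀ i j, S i j = S j i)
    (hq : ∀ i j : Fin 26, (∑ l, S i l * S l j) = if i = j then 25 else 0) :
    ∃ v : Fin 26 → EuclideanSpace ℝ (Fin 13), IsRealETF v ∧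
      ∀ i j, gramMatrix v i j = (if i = j then 1 else 0) + (S i j : ℝ) / 5 := by
  set X : Matrix (Fin 26) (Fin 26) ℝ := Matrix.of fun i j => (if i = j then 1 else 0) + (S i j : ℝ) / 5
    with hX
  have hXe : ∀ i j, X i j = (if i = j then 1 else 0) + (S i j : ℝ) / 5 := fun i j => rfl
  have hherm : X.IsHermitian := by
    ext i j
    rw [Matrix.conjTranspose_apply, hXe, hXe, hs j i]
    simp only [star_trivial]
    congr 1
    by_cases h : i = j
    · simp [h]
    · simp [h, Ne.symm h]
  have hq' : ∀ i j : Fin 26, (∑ l, (S i l : ℝ) * (S l j : ℝ)) = if i = j then 25 else 0 := by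
    intro i j
    have := congrArg (fun z : ℤ => (z : ℝ)) (hq i j)
    push_cast at this
    exact this
  have h2 : X * X = (2 : ℝ) • X := by
    ext i j
    rw [Matrix.mul_apply, Matrix.smul_apply, smul_eq_mul]
    have e1 : ∀ l, X i l * X l j = (if i = l then 1 else 0) * (if l = j then 1 else 0) +
        (if i = l then (S l j : ℝ) / 5 else 0) + (if l = j then (S i l : ℝ) / 5 else 0) +
        (1 / 25) * ((S i l : ℝ) * (S l j : ℝ)) := by
      intro l
      rw [hXe, hXe]
      by_cases hb : l = j
      · subst hb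
        by_cases ha : i = l
        · simp [ha]; ring
        · simp [ha]; ring
      · by_cases ha : i = l
        · subst ha
          simp [hb]; ring
        · simp [ha, hb]; ring
    rw [Finset.sum_congr rfl (fun l _ => e1 l), Finset.sum_add_distrib, Finset.sum_add_distrib,
      Finset.sum_add_distrib, ← Finset.mul_sum, hq', hXe]
    simp only [Finset.sum_ite_eq, Finset.sum_ite_eq', Finset.mem_univ, if_true, ite_mul, one_mul,
      zero_mul]
    by_cases h : i = j
    · simp [h]; ring
    · simp [h]; ring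
  have htr : X.trace = 2 * ((13 : ℕ) : ℝ) := by
    unfold Matrix.trace
    have e1 : ∀ i, X.diag i = 1 := by
      intro i
      rw [Matrix.diag_apply, hXe, h0]
      simp
    rw [Finset.sum_congr rfl (fun i _ => e1 i)]
    simp
    norm_num
  obtain ⟨v, hv1, hv2⟩ := gram_of_proj X hherm h2 htr
  have hg : ∀ i j, gramMatrix v i j = (if i = j then 1 else 0) + (S i j : ℝ) / 5 := by
    intro i j
    rw [← hXe, ← hv1]
    rfl
  refine ⟨v, ⟨?_, ?_, ?_⟩, hg⟩
  · intro i
    have := hv1 i i
    rw [hXe, h0, real_inner_self_eq_norm_sq] at this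
    simp only [if_true, Int.cast_zero, zero_div, add_zero] at this
    have h3 := norm_nonneg (v i)
    nlinarith
  · intro a b
    rw [hv2]
    norm_num
  · refine ⟨1 / 5, by norm_num, by norm_num, ?_⟩
    intro i j hij
    rw [hv1, hXe]
    rcases h1 i j hij with h | h
    · rw [h]; simp [hij]
    · rw [h]; simp [hij]; norm_num

/-! ### Membership in all elliptopes -/

theorem prod_count {N m : ℕ} (x : Fin N → ℝ) (t : Fin m → Fin N) :
    ∏ s, x (t s) = ∏ k, x k ^ (Finset.univ.filter fun s => t s = k).card := by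
  rw [← Finset.prod_fiberwise Finset.univ t (fun s => x (t s))]
  apply Finset.prod_congr rfl
  intro k _
  rw [Finset.prod_congr rfl (g := fun _ => x k)]
  · rw [Finset.prod_const]
  · intro s hs
    rw [(Finset.mem_filter.1 hs).2]

theorem prod_odd {N m : ℕ} (x : Fin N → ℝ) (hx : ∀ k, x k = 1 ∨ x k = -1) (i j : Fin m → Fin N) :
    (∏ s, x (i s)) * (∏ s, x (j s)) = ∏ k ∈ oddSet i j, x k := by
  rw [prod_count, prod_count, ← Finset.prod_mul_distrib]
  unfold oddSet
  rw [Finset.prod_filter]
  apply Finset.prod_congr rfl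
  intro k _
  rw [← pow_add]
  set n := (Finset.univ.filter fun s => i s = k).card + (Finset.univ.filter fun s => j s = k).card
  by_cases h : Odd n
  · rw [if_pos h]
    rcases hx k with h1 | h1
    · rw [h1]; simp
    · rw [h1, h.neg_one_pow]
  · rw [if_neg h]
    rw [Nat.not_odd_iff_even] at h
    rcases hx k with h1 | h1
    · rw [h1]; simp
    · rw [h1, h.neg_one_pow]

theorem in_all {N : ℕ} [NeZero N] {K : ℕ} (x : Fin K → Fin N → ℝ)
    (hx : ∀ k i, x k i = 1 ∨ x k i = -1) (hK : 0 < K) (X : Matrix (Fin N) (Fin N) ℝ)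
    (hX : ∀ i j, ∑ k, x k i * x k j = K * X i j) (d : ℕ) (hd : 0 < d) (he : Even d) :
    InElliptope d X := by
  have hK' : (0 : ℝ) < K := by exact_mod_cast hK
  obtain ⟨m, hm⟩ : ∃ m, d / 2 = m + 1 := by
    obtain ⟨c, hc⟩ := he
    exact ⟨d / 2 - 1, by omega⟩
  unfold InElliptope
  rw [hm]
  set Z : Matrix (Fin K) (Fin (m + 1) → Fin N) ℝ := Matrix.of fun k t => ∏ s, x k (t s) with hZ
  have hY : ∀ i j, ((1 / (K : ℝ)) • (Zᴴ * Z)) i j = (1 / (K : ℝ)) * ∑ k, ∏ a ∈ oddSet i j, x k a := by
    intro i j
    rw [Matrix.smul_apply, Matrix.mul_apply, smul_eq_mul]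
    congr 1
    apply Finset.sum_congr rfl
    intro k _
    rw [Matrix.conjTranspose_apply, star_trivial, ← prod_odd (x k) (hx k)]
    rfl
  refine ⟨(1 / (K : ℝ)) • (Zᴴ * Z), ?_, ?_, ?_, ?_⟩
  · intro i j hij
    rw [hY, hij]
    simp
    field_simp
  · intro i j i' j' h
    rw [hY, hY, h]
  · intro i j
    rw [hY]
    have e1 : ∀ k, ∏ a ∈ oddSet (lastTuple (m + 1) i) (lastTuple (m + 1) j), x k a =
        x k i * x k j := by
      intro k
      rw [← prod_odd (x k) (hx k), Fin.prod_univ_castSucc, Fin.prod_univ_castSucc]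
      have e2 : ∀ (i : Fin N) (s : Fin m), lastTuple (m + 1) i s.castSucc = 0 := by
        intro i s
        unfold lastTuple
        rw [if_neg]
        rw [Fin.val_castSucc]
        have := s.2
        omega
      have e3 : ∀ i : Fin N, lastTuple (m + 1) i (Fin.last m) = i := by
        intro i
        unfold lastTuple
        rw [if_pos]
        simp
      simp only [e2, e3, Finset.prod_const]
      have e4 : x k 0 ^ (Finset.univ : Finset (Fin m)).card * x k 0 ^ (Finset.univ : Finset (Fin m)).card = 1 := by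
        rw [← pow_add, ← two_mul, pow_mul]
        rcases hx k 0 with h | h <;> simp [h]
      linear_combination (x k i * x k j) * e4
    simp only [e1]
    rw [hX]
    field_simp
  · apply Matrix.PosSemidef.smul
    · exact Matrix.posSemidef_conjTranspose_mul_self Z
    · positivity

/-! ### Non-membership -/

/-- number of occurrences -/
def cnt {N m : ℕ} (t : Fin m → Fin N) (k : Fin N) : ℕ := (Finset.univ.filter fun s => t s = k).card

theorem cnt_sum {N m : ℕ} (t : Fin m → Fin N) : ∑ k, cnt t k = m := by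
  have h := Finset.card_eq_sum_card_fiberwise (s := (Finset.univ : Finset (Fin m)))
    (t := (Finset.univ : Finset (Fin N))) (f := t) (fun _ _ => Finset.mem_coe.2 (Finset.mem_univ _))
  rw [Finset.card_univ, Fintype.card_fin] at h
  exact h.symm

theorem oddSet_eq {m : ℕ} {i j i' j' : Fin m → Fin 26}
    (h : ∀ l : Fin 25, ((cnt i l.succ + cnt j l.succ : ℕ) : ZMod 2) =
      ((cnt i' l.succ + cnt j' l.succ : ℕ) : ZMod 2)) : oddSet i j = oddSet i' j' := by
  have hsum : ∀ i j : Fin m → Fin 26, ((cnt i 0 + cnt j 0 : ℕ) : ZMod 2) =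
      - ∑ l : Fin 25, ((cnt i l.succ + cnt j l.succ : ℕ) : ZMod 2) := by
    intro i j
    have h1 := cnt_sum i
    have h2 := cnt_sum j
    rw [Fin.sum_univ_succ] at h1 h2
    have h3 : (cnt i 0 + cnt j 0) + ∑ l : Fin 25, (cnt i l.succ + cnt j l.succ) = 2 * m := by
      rw [Finset.sum_add_distrib]; omega
    have h4 := congrArg (fun n : ℕ => (n : ZMod 2)) h3
    push_cast at h4 ⊢
    have h5 : (2 : ZMod 2) = 0 := rfl
    rw [h5, zero_mul] at h4
    linear_combination h4
  have hall : ∀ k, ((cnt i k + cnt j k : ℕ) : ZMod 2) = ((cnt i' k + cnt j' k : ℕ) : ZMod 2) := by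
    intro k
    rcases Fin.eq_zero_or_eq_succ k with h0 | ⟨l, hl⟩
    · rw [h0, hsum i j, hsum i' j', Finset.sum_congr rfl (fun l _ => h l)]
    · rw [hl]
      exact h l
  ext k
  simp only [oddSet, Finset.mem_filter, Finset.mem_univ, true_and]
  change Odd (cnt i k + cnt j k) ↔ Odd (cnt i' k + cnt j' k)
  rw [← ZMod.natCast_ne_zero_iff_odd, ← ZMod.natCast_ne_zero_iff_odd, hall]

/-- the tuple of a subset -/
def tS (m : ℕ) (S : Finset (Fin 25)) : Fin m → Fin 26 :=
  fun s => if h : s.val < 25 then
    (if (⟨s.val, h⟩ : Fin 25) ∈ S then (⟨s.val, h⟩ : Fin 25).succ else 0) else 0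

theorem cnt_tS {m : ℕ} (hm : 25 ≤ m) (S : Finset (Fin 25)) (l : Fin 25) :
    cnt (tS m S) l.succ = if l ∈ S then 1 else 0 := by
  unfold cnt
  have h1 : (Finset.univ.filter fun s => tS m S s = l.succ) =
      if l ∈ S then {(⟨l.val, by omega⟩ : Fin m)} else ∅ := by
    ext s
    simp only [Finset.mem_filter, Finset.mem_univ, true_and]
    unfold tS
    by_cases hs : s.val < 25
    · rw [dif_pos hs]
      by_cases h2 : (⟨s.val, hs⟩ : Fin 25) ∈ S
      · rw [if_pos h2]
        constructor
        · intro h3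
          have h4 : (⟨s.val, hs⟩ : Fin 25) = l := Fin.succ_injective _ h3
          subst h4
          rw [if_pos h2]
          simp
        · intro h3
          by_cases hl : l ∈ S
          · rw [if_pos hl, Finset.mem_singleton] at h3
            subst h3
            rfl
          · rw [if_neg hl] at h3
            simp at h3
      · rw [if_neg h2]
        constructor
        · intro h3
          exact absurd h3.symm (Fin.succ_ne_zero l)
        · intro h3
          by_cases hl : l ∈ S
          · rw [if_pos hl, Finset.mem_singleton] at h3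
            subst h3
            exact absurd hl h2
          · rw [if_neg hl] at h3
            simp at h3
    · rw [dif_neg hs]
      constructor
      · intro h3
        exact absurd h3.symm (Fin.succ_ne_zero l)
      · intro h3
        by_cases hl : l ∈ S
        · rw [if_pos hl, Finset.mem_singleton] at h3
          subst h3
          exact absurd l.2 hs
        · rw [if_neg hl] at h3
          simp at h3
  rw [h1]
  by_cases hl : l ∈ S
  · rw [if_pos hl, if_pos hl]; simp
  · rw [if_neg hl, if_neg hl]; simp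

theorem cnt_last {m : ℕ} (hm : 0 < m) (i : Fin 26) (l : Fin 25) :
    cnt (lastTuple m i) l.succ = if l.succ = i then 1 else 0 := by
  unfold cnt
  have h1 : (Finset.univ.filter fun s => lastTuple m i s = l.succ) =
      if l.succ = i then {(⟨m - 1, by omega⟩ : Fin m)} else ∅ := by
    ext s
    simp only [Finset.mem_filter, Finset.mem_univ, true_and]
    unfold lastTuple
    by_cases hs : s.val + 1 = m
    · rw [if_pos hs]
      have hs' : s = ⟨m - 1, by omega⟩ := by ext; simp; omega
      by_cases hl : l.succ = i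
      · rw [if_pos hl]
        simp [hl, hs']
      · rw [if_neg hl]
        simp [Ne.symm hl]
    · rw [if_neg hs]
      have hs' : s ≠ ⟨m - 1, by omega⟩ := by
        intro h
        rw [h] at hs
        simp at hs
        omega
      by_cases hl : l.succ = i
      · rw [if_pos hl]
        simp [hs', (Fin.succ_ne_zero l).symm]
      · rw [if_neg hl]
        simp [(Fin.succ_ne_zero l).symm]
  rw [h1]
  by_cases hl : l.succ = i
  · rw [if_pos hl, if_pos hl]; simp
  · rw [if_neg hl, if_neg hl]; simp

/-- the set attached to an index -/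
def iot (i : Fin 26) : Finset (Fin 25) := Finset.univ.filter fun l => l.succ = i

theorem mem_iot (i : Fin 26) (l : Fin 25) : l ∈ iot i ↔ l.succ = i := by simp [iot]

theorem odd1 {m : ℕ} (hm : 25 ≤ m) (S T : Finset (Fin 25)) :
    oddSet (tS m S) (tS m T) = oddSet (tS m ∅) (tS m (symmDiff S T)) := by
  apply oddSet_eq
  intro l
  rw [cnt_tS hm, cnt_tS hm, cnt_tS hm, cnt_tS hm]
  simp only [Finset.mem_symmDiff, Finset.notMem_empty, if_false]
  by_cases h1 : l ∈ S <;> by_cases h2 : l ∈ T <;> simp [h1, h2]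
  rfl

theorem odd2 {m : ℕ} (hm : 25 ≤ m) (i j : Fin 26) :
    oddSet (tS m (iot i)) (tS m (iot j)) = oddSet (lastTuple m i) (lastTuple m j) := by
  apply oddSet_eq
  intro l
  rw [cnt_tS hm, cnt_tS hm, cnt_last (by omega), cnt_last (by omega)]
  simp only [mem_iot]

/-- signs -/
def sg (b : Bool) : ℤ := if b then 1 else -1

theorem sg_or (b : Bool) : sg b = 1 ∨ sg b = -1 := by cases b <;> simp [sg]

/-- characters -/
noncomputable def chi (x : Fin 25 → Bool) (U : Finset (Fin 25)) : ℝ :=
  ∏ l, if l ∈ U then (sg (x l) : ℝ) else 1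

theorem chi_mul (x : Fin 25 → Bool) (U V : Finset (Fin 25)) :
    chi x U * chi x V = chi x (symmDiff U V) := by
  unfold chi
  rw [← Finset.prod_mul_distrib]
  apply Finset.prod_congr rfl
  intro l _
  simp only [Finset.mem_symmDiff]
  rcases sg_or (x l) with h | h <;> rw [h] <;>
    by_cases h1 : l ∈ U <;> by_cases h2 : l ∈ V <;> simp [h1, h2]

theorem chi_orth (U V : Finset (Fin 25)) :
    ∑ x, chi x U * chi x V = if U = V then 2 ^ 25 else 0 := by
  have h1 : ∀ x, chi x U * chi x V = ∏ l, (fun (l : Fin 25) (b : Bool) =>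
      (if l ∈ U then (sg b : ℝ) else 1) * (if l ∈ V then (sg b : ℝ) else 1)) l (x l) := by
    intro x
    unfold chi
    rw [← Finset.prod_mul_distrib]
  have h2 : ∑ x : Fin 25 → Bool, ∏ l, (fun (l : Fin 25) (b : Bool) =>
      (if l ∈ U then (sg b : ℝ) else 1) * (if l ∈ V then (sg b : ℝ) else 1)) l (x l) =
      ∏ l, ∑ b : Bool, (if l ∈ U then (sg b : ℝ) else 1) * (if l ∈ V then (sg b : ℝ) else 1) := by
    rw [Finset.prod_univ_sum, Fintype.piFinset_univ]
  rw [Finset.sum_congr rfl (fun x _ => h1 x), h2]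
  by_cases h : U = V
  · subst h
    rw [if_pos rfl]
    have h3 : ∀ l : Fin 25, (∑ b : Bool, (if l ∈ U then (sg b : ℝ) else 1) *
        (if l ∈ U then (sg b : ℝ) else 1)) = 2 := by
      intro l
      rw [Fintype.sum_bool]
      by_cases h4 : l ∈ U <;> simp [h4, sg] <;> norm_num
    rw [Finset.prod_congr rfl (fun l _ => h3 l)]
    simp
  · rw [if_neg h]
    have h3 : ∃ l, ¬ (l ∈ U ↔ l ∈ V) := by
      by_contra hcon
      push Not at hcon
      exact h (Finset.ext hcon)
    obtain ⟨l, hl⟩ := h3
    apply Finset.prod_eq_zero (Finset.mem_univ l)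
    rw [Fintype.sum_bool]
    by_cases h4 : l ∈ U <;> by_cases h5 : l ∈ V <;> simp [h4, h5, sg] at hl ⊢

/-- extended sign vector -/
def xx (x : Fin 25 → Bool) : Fin 26 → ℤ := Fin.cons 1 (fun l => sg (x l))

theorem xx_or (x : Fin 25 → Bool) (i : Fin 26) : xx x i = 1 ∨ xx x i = -1 := by
  unfold xx
  refine Fin.cases ?_ ?_ i
  · left; rfl
  · intro l
    rw [Fin.cons_succ]
    exact sg_or _

theorem chi_iot (x : Fin 25 → Bool) (i : Fin 26) : chi x (iot i) = (xx x i : ℝ) := by
  unfold chi xx
  refine Fin.cases ?_ ?_ i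
  · rw [Fin.cons_zero]
    simp [mem_iot, Fin.succ_ne_zero]
  · intro l
    rw [Fin.cons_succ]
    simp only [mem_iot, Fin.succ_inj]
    rw [Finset.prod_ite_eq' Finset.univ l (fun l => (sg (x l) : ℝ))]
    simp

theorem lft_val : ∀ i : Fin 13, lft i ≠ lft (i + 2) ∧ cf rows2 (lft i) (lft (i + 2)) = -1 := by
  decide +kernel

theorem not_in (X : Matrix (Fin 26) (Fin 26) ℝ)
    (hX : ∀ i j, X i j = (if i = j then 1 else 0) + (cf rows2 i j : ℝ) / 5) (d : ℕ) (hd : 50 ≤ d) :
    ¬ InElliptope d X := by
  rintro ⟨Y, -, hY2, hY3, hY4⟩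
  have hm : 25 ≤ d / 2 := by omega
  generalize d / 2 = m at *
  set f : Finset (Fin 25) → ℝ := fun U => Y (tS m ∅) (tS m U) with hfdef
  have hf : ∀ S T, Y (tS m S) (tS m T) = f (symmDiff S T) := fun S T => hY2 _ _ _ _ (odd1 hm S T)
  have hfX : ∀ i j, f (symmDiff (iot i) (iot j)) = X i j := by
    intro i j
    rw [← hf, ← hY3]
    exact hY2 _ _ _ _ (odd2 hm i j)
  set F : (Fin 25 → Bool) → ℝ := fun x => ∑ U, chi x U * f U with hFdef
  have hF : ∀ x, 0 ≤ F x := by
    intro x
    have h1 := (hY4.submatrix (tS m)).dotProduct_mulVec_nonneg (chi x)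
    have h2 : star (chi x) ⬝ᵥ (Y.submatrix (tS m) (tS m) *ᵥ chi x) = 2 ^ 25 * F x := by
      have e1 : star (chi x) ⬝ᵥ (Y.submatrix (tS m) (tS m) *ᵥ chi x) =
          ∑ S, ∑ T, chi x (symmDiff S T) * f (symmDiff S T) := by
        unfold dotProduct Matrix.mulVec dotProduct
        apply Finset.sum_congr rfl
        intro S _
        rw [Finset.mul_sum]
        apply Finset.sum_congr rfl
        intro T _
        show star (chi x) S * (Y (tS m S) (tS m T) * chi x T) = _
        rw [hf, ← chi_mul]
        simp only [Pi.star_apply, star_trivial]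
        ring
      rw [e1]
      have e2 : ∀ S : Finset (Fin 25), ∑ T, chi x (symmDiff S T) * f (symmDiff S T) = F x := by
        intro S
        have hinv : Function.Involutive (fun T : Finset (Fin 25) => symmDiff S T) := by
          intro T
          simp
        exact Equiv.sum_comp hinv.toPerm (fun U => chi x U * f U)
      rw [Finset.sum_congr rfl (fun S _ => e2 S), Finset.sum_const, Finset.card_univ,
        Fintype.card_finset, Fintype.card_fin, nsmul_eq_mul]
      norm_num
    rw [h2] at h1
    have h3 : (0 : ℝ) < 2 ^ 25 := by positivity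
    exact nonneg_of_mul_nonneg_right h1 h3
  have hL : ∀ V, ∑ x, F x * chi x V = 2 ^ 25 * f V := by
    intro V
    have e1 : ∀ x, F x * chi x V = ∑ U, f U * (chi x U * chi x V) := by
      intro x
      rw [hFdef]
      simp only
      rw [Finset.sum_mul]
      apply Finset.sum_congr rfl
      intro U _
      ring
    rw [Finset.sum_congr rfl (fun x _ => e1 x), Finset.sum_comm]
    have e2 : ∀ U, ∑ x, f U * (chi x U * chi x V) = if U = V then 2 ^ 25 * f U else 0 := by
      intro U
      rw [← Finset.mul_sum, chi_orth]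
      by_cases h : U = V
      · rw [if_pos h, if_pos h]; ring
      · rw [if_neg h, if_neg h]; ring
    rw [Finset.sum_congr rfl (fun U _ => e2 U)]
    simp
  have hLX : ∀ i j, ∑ x, F x * ((xx x i : ℝ) * xx x j) = 2 ^ 25 * X i j := by
    intro i j
    rw [← hfX, ← hL]
    apply Finset.sum_congr rfl
    intro x _
    rw [← chi_mul, chi_iot, chi_iot]
  -- the quadratic form vanishes
  set M : Fin 26 → Fin 26 → ℝ := fun k j => ((cf rows2 k j - if k = j then 5 else 0 : ℤ) : ℝ) with hM
  have hMX : ∀ k j, ∑ i, M k i * X i j = 0 := by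
    intro k j
    have e1 : ∀ i, M k i * X i j = (if i = j then (cf rows2 k i : ℝ) else 0) +
        (cf rows2 k i : ℝ) * (cf rows2 i j : ℝ) / 5 - (if k = i then (if i = j then 5 else 0) else 0) -
        (if k = i then (cf rows2 i j : ℝ) else 0) := by
      intro i
      rw [hM, hX]
      simp only
      by_cases h1 : k = i
      · subst h1
        by_cases h2 : k = j
        · subst h2; simp; ring
        · simp [h2]; ring
      · by_cases h2 : i = j
        · subst h2; simp [h1]; ring
        · simp [h1, h2]; ring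
    have e2 : ∑ i, (cf rows2 k i : ℝ) * (cf rows2 i j : ℝ) = if k = j then 25 else 0 := by
      have := congrArg (fun z : ℤ => (z : ℝ)) (sq2 k j)
      push_cast at this
      exact this
    rw [Finset.sum_congr rfl (fun i _ => e1 i), Finset.sum_sub_distrib, Finset.sum_sub_distrib,
      Finset.sum_add_distrib, ← Finset.sum_div, e2]
    simp only [Finset.sum_ite_eq, Finset.sum_ite_eq', Finset.mem_univ, if_true]
    by_cases h : k = j
    · simp [h]; norm_num
    · simp [h]
  have hq : ∑ x, F x * ∑ k, (∑ j, M k j * xx x j) ^ 2 = 0 := by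
    have e1 : ∀ x, F x * ∑ k, (∑ j, M k j * xx x j) ^ 2 =
        ∑ k, ∑ i, ∑ j, M k i * M k j * (F x * ((xx x i : ℝ) * xx x j)) := by
      intro x
      rw [Finset.mul_sum]
      apply Finset.sum_congr rfl
      intro k _
      rw [sq, Finset.sum_mul_sum, Finset.mul_sum]
      apply Finset.sum_congr rfl
      intro i _
      rw [Finset.mul_sum]
      apply Finset.sum_congr rfl
      intro j _
      ring
    rw [Finset.sum_congr rfl (fun x _ => e1 x), Finset.sum_comm]
    apply Finset.sum_eq_zero
    intro k _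
    rw [Finset.sum_comm]
    have e2 : ∀ i, ∑ x, ∑ j, M k i * M k j * (F x * ((xx x i : ℝ) * xx x j)) =
        ∑ j, 2 ^ 25 * M k j * (M k i * X i j) := by
      intro i
      rw [Finset.sum_comm]
      apply Finset.sum_congr rfl
      intro j _
      rw [← Finset.mul_sum, hLX]
      ring
    rw [Finset.sum_congr rfl (fun i _ => e2 i), Finset.sum_comm]
    apply Finset.sum_eq_zero
    intro j _
    rw [← Finset.mul_sum, hMX, mul_zero]
  have hz : ∀ x, F x ≠ 0 → ∀ k, ∑ j, (cf rows2 k j - if k = j then 5 else 0) * xx x j = 0 := by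
    intro x hx k
    have h1 := (Finset.sum_eq_zero_iff_of_nonneg (fun x _ => mul_nonneg (hF x)
      (Finset.sum_nonneg (fun k _ => sq_nonneg (∑ j, M k j * (xx x j : ℝ)))))).1 hq x (Finset.mem_univ _)
    have h2 := (mul_eq_zero.1 h1).resolve_left hx
    have h3 := (Finset.sum_eq_zero_iff_of_nonneg
      (fun k _ => sq_nonneg (∑ j, M k j * (xx x j : ℝ)))).1 h2 k (Finset.mem_univ _)
    have h4 := pow_eq_zero_iff (two_ne_zero) |>.1 h3
    rw [hM] at h4
    simp only at h4
    exact_mod_cast h4
  have hRnn : ∀ x, 0 ≤ F x * ((∑ i : Fin 13, xx x (lft i) * xx x (lft (i + 2)) : ℤ) : ℝ) := by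
    intro x
    by_cases hx : F x = 0
    · rw [hx, zero_mul]
    · apply mul_nonneg (hF x)
      have := kern_main (xx x) (xx_or x) (hz x hx)
      have h2 : (0 : ℤ) ≤ ∑ i : Fin 13, xx x (lft i) * xx x (lft (i + 2)) := by omega
      exact_mod_cast h2
  have hR : ∑ x, F x * ((∑ i : Fin 13, xx x (lft i) * xx x (lft (i + 2)) : ℤ) : ℝ) =
      2 ^ 25 * (-13 / 5) := by
    have e1 : ∀ x, F x * ((∑ i : Fin 13, xx x (lft i) * xx x (lft (i + 2)) : ℤ) : ℝ) =
        ∑ i : Fin 13, F x * ((xx x (lft i) : ℝ) * xx x (lft (i + 2))) := by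
      intro x
      push_cast
      rw [Finset.mul_sum]
    rw [Finset.sum_congr rfl (fun x _ => e1 x), Finset.sum_comm]
    have e2 : ∀ i : Fin 13, ∑ x, F x * ((xx x (lft i) : ℝ) * xx x (lft (i + 2))) =
        2 ^ 25 * (-1 / 5) := by
      intro i
      rw [hLX, hX, if_neg (lft_val i).1, (lft_val i).2]
      norm_num
    rw [Finset.sum_congr rfl (fun i _ => e2 i), Finset.sum_const, Finset.card_univ, Fintype.card_fin,
      nsmul_eq_mul]
    norm_num
  have hfin := Finset.sum_nonneg (fun x (_ : x ∈ Finset.univ) => hRnn x)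
  rw [hR] at hfin
  norm_num at hfin

theorem cf_or (rows : List ℕ) (i j : Fin 26) (h : i ≠ j) : cf rows i j = 1 ∨ cf rows i j = -1 := by
  unfold cf
  rw [if_neg h]
  split_ifs
  · left; rfl
  · right; rfl

theorem cf_diag (rows : List ℕ) (i : Fin 26) : cf rows i i = 0 := by
  unfold cf
  rw [if_pos rfl]

/-- **Two real equiangular tight frames with the same parameters `(26, 13)` and different `d^*`.** -/
theorem TwoEquiangularFrames.result :
    ∃ v w : Fin 26 → EuclideanSpace ℝ (Fin 13), IsRealETF v ∧ IsRealETF w ∧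
      dStar (gramMatrix v) = ⊤ ∧ dStar (gramMatrix w) ≤ 48 := by
  obtain ⟨v, hv, hgv⟩ := etf_of_conf (cf rows1) (cf_diag _) (cf_or _) symm1 sq1
  obtain ⟨w, hw, hgw⟩ := etf_of_conf (cf rows2) (cf_diag _) (cf_or _) symm2 sq2
  refine ⟨v, w, hv, hw, ?_, ?_⟩
  · have hall : ∀ d, 0 < d → Even d → InElliptope d (gramMatrix v) := by
      intro d hd he
      refine in_all (K := 30) (fun k i => (sgnv k i : ℝ)) ?_ (by norm_num) _ ?_ d hd he
      · intro k i
        unfold sgnv
        split_ifs
        · left; simp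
        · right; simp
      · intro i j
        rw [hgv]
        have := congrArg (fun z : ℤ => (z : ℝ)) (cut1 i j)
        push_cast at this
        rw [this]
        by_cases h : i = j
        · subst h
          rw [if_pos rfl, if_pos rfl, cf_diag]
          norm_num
        · rw [if_neg h, if_neg h]
          push_cast
          ring
    unfold dStar
    rw [iSup_eq_top]
    intro b hb
    obtain ⟨n, rfl⟩ := ENat.ne_top_iff_exists.1 hb.ne
    refine ⟨2 * n + 2, ?_⟩
    rw [iSup_pos ⟨by omega, ⟨n + 1, by ring⟩, hall _ (by omega) ⟨n + 1, by ring⟩⟩]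
    exact_mod_cast (by omega : n < 2 * n + 2)
  · unfold dStar
    apply iSup₂_le
    rintro d ⟨hd, he, hin⟩
    have h1 : ¬ 50 ≤ d := fun h => not_in _ hgw d h hin
    obtain ⟨c, hc⟩ := he
    exact_mod_cast (by omega : d ≤ 48)

end Pool.Agent.Results.MP_dc1a88_an
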